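import Pool.Agent.H71.AL.Targets

/-!
Row EXT of alv_modules: isomorphisms of dense subsets extend to the line.
-/

set_option autoImplicit false

open Set

open Pool.Agent.AL

namespace Pool.Agent.H64.ALV

/-- the extension -/
noncomputable def ex (e e' : ℕ → ℝ) (x : ℝ) : ℝ := sSup {v | ∃ m, e m < x ∧ v = e' m}

section

variable {e e' : ℕ → ℝ} (h1 : Ds (range e)) (h2 : Ds (range e'))
  (ho : ∀ m n, e m < e n ↔ e' m < e' n)

include h1 ho in
theorem ex_le (x : ℝ) (n : ℕ) (hn : x ≤ e n) : ex e e' x ≤ e' n := by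
  obtain ⟨_, ⟨m, rfl⟩, _, hm⟩ := h1 (x - 1) x (by linarith)
  refine csSup_le ⟨e' m, m, hm, rfl⟩ ?_
  rintro v ⟨j, hj, rfl⟩
  exact ((ho j n).1 (hj.trans_le hn)).le

include h1 ho in
theorem le_ex (x : ℝ) (n : ℕ) (hn : e n < x) : e' n ≤ ex e e' x := by
  obtain ⟨_, ⟨m, rfl⟩, hm, _⟩ := h1 x (x + 1) (by linarith)
  refine le_csSup ⟨e' m, ?_⟩ ⟨n, hn, rfl⟩
  rintro v ⟨j, hj, rfl⟩
  exact ((ho j m).1 (hj.trans hm)).le

include h1 ho in
theorem ex_mono : StrictMono (ex e e') := by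
  intro x y hxy
  obtain ⟨_, ⟨m, rfl⟩, hm, hmy⟩ := h1 x y hxy
  obtain ⟨_, ⟨n, rfl⟩, hn, hny⟩ := h1 (e m) y hmy
  exact (ex_le h1 ho x m hm.le).trans_lt
    (((ho m n).1 hn).trans_le (le_ex h1 ho y n hny))

include h1 h2 ho in
theorem ex_e (m : ℕ) : ex e e' (e m) = e' m := by
  refine le_antisymm (ex_le h1 ho _ m le_rfl) ?_
  by_contra h
  obtain ⟨_, ⟨n, rfl⟩, hn, hnm⟩ := h2 _ _ (not_le.1 h)
  have := le_ex h1 ho (e m) n ((ho n m).2 hnm)
  linarith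

include h1 h2 ho in
theorem ex_ex (v : ℝ) : ex e e' (ex e' e v) = v := by
  have ho' : ∀ m n, e' m < e' n ↔ e m < e n := fun m n => (ho m n).symm
  rcases lt_trichotomy (ex e e' (ex e' e v)) v with h | h | h
  · exfalso
    obtain ⟨_, ⟨m, rfl⟩, hm, hmv⟩ := h2 _ _ h
    have h3 := ex_mono h2 ho' hmv
    rw [ex_e h2 h1 ho' m] at h3
    have h4 := ex_mono h1 ho h3
    rw [ex_e h1 h2 ho m] at h4
    linarith
  · exact h
  · exfalso
    obtain ⟨_, ⟨m, rfl⟩, hm, hmv⟩ := h2 _ _ h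
    have h3 := ex_mono h2 ho' hm
    rw [ex_e h2 h1 ho' m] at h3
    have h4 := ex_mono h1 ho h3
    rw [ex_e h1 h2 ho m] at h4
    linarith

include h1 h2 ho in
theorem inc : ∃ k : ℝ ≃ₜ ℝ, StrictMono k ∧ ∀ m, k (e m) = e' m := by
  have hm := ex_mono h1 ho
  have hs : Function.Surjective (ex e e') := fun v => ⟨_, ex_ex h1 h2 ho v⟩
  refine ⟨(StrictMono.orderIsoOfSurjective _ hm hs).toHomeomorph, ?_, ?_⟩
  · intro x y hxy
    exact hm hxy
  · intro m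
    exact ex_e h1 h2 ho m

end

theorem pf_EXT : T_EXT := by
  intro e e' h1 h2
  refine ⟨fun ho => inc h1 h2 ho, fun ho => ?_⟩
  have h3 : Ds (range fun m => - e' m) := by
    intro p q hpq
    obtain ⟨_, ⟨m, rfl⟩, hm, hmq⟩ := h2 (-q) (-p) (by linarith)
    exact ⟨_, ⟨m, rfl⟩, by linarith, by linarith⟩
  obtain ⟨k, hk, hke⟩ := inc h1 h3 (fun m n => (ho m n).trans neg_lt_neg_iff.symm)
  refine ⟨k.trans (Homeomorph.neg ℝ), ?_, ?_⟩
  · intro x y hxy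
    have := hk hxy
    change - k y < - k x
    linarith
  · intro m
    change - k (e m) = e' m
    rw [hke, neg_neg]

end Pool.Agent.H64.ALV
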